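import Pool.Agent.Y798.JT

/-!
# Jones's set function, lower semicontinuous on the points, with interior at one point

A continuum is a compact connected Hausdorff space.  The question is whether a continuum `S` for which Jones's
set function `T` is continuous is indecomposable as soon as some `T(p)` has nonempty interior.  The answer is
yes, and continuity of `T` on the hyperspace of closed sets can be replaced by the lower semicontinuity of
the map `x ↦ T(x)` on the points.  Under this hypothesis the sets `T(x)` form a partition of `S`.

The proof.  Lower semicontinuity gives `T(y) ⊆ T(x)` for `y ∈ T(x)`.  Let `M` be the set of the points `z`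
such that `z ∈ T(y)` for all `y ∈ T(z)`.  Every `T(x)` contains a point of `M`, and `M` is closed and connected.
Suppose that `p` is not in `M`, so that `a ∈ T(p)` and `p ∉ T(a)` for some `a`.  If `V` is a small open
neighbourhood of `a`, then `M ∪ T(closure V)` is a continuum neighbourhood of `a` that does not contain `p`,
a contradiction.  Hence `M = S`, the `T(x)` form a partition, and by lower semicontinuity a `T(p)` with interior points is
open.
-/

set_option autoImplicit false

universe u

namespace Pool.Agent.Results.MP_3a3191_gt.InteriorAtOnePoint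

open Set Topology TopologicalSpace

variable (S : Type u) [TopologicalSpace S]

/-- Jones's set function `T(A) = S \ {p : there is a subcontinuum W with p ∈ int W, W ∩ A = ∅}`. -/
def jonesT (A : Set S) : Set S :=
  {p : S | ∃ W : Set S, IsClosed W ∧ IsConnected W ∧ p ∈ interior W ∧ W ∩ A = ∅}ᶜ

/-- The Vietoris topology on the set of all closed subsets of `S`: it is generated by the sets
`{A | A ⊆ U}` and `{A | A ∩ U ≠ ∅}` for open `U`. -/
abbrev vietorisTopology : TopologicalSpace {A : Set S // IsClosed A} :=
  generateFrom {X | ∃ U : Set S, IsOpen U ∧ (X = {A | A.1 ⊆ U} ∨ X = {A | (A.1 ∩ U).Nonempty})}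

/-- `T` is continuous for `S`: for closed `A` the set `T(A)` is closed, and `A ↦ T(A)` is a continuous
map of the hyperspace of the closed subsets of `S` into itself. -/
def TContinuous : Prop :=
  ∃ h : ∀ A : {A : Set S // IsClosed A}, IsClosed (jonesT S A.1),
    @Continuous _ _ (vietorisTopology S) (vietorisTopology S)
      (fun A : {A : Set S // IsClosed A} => (⟨jonesT S A.1, h A⟩ : {A : Set S // IsClosed A}))

/-- The map `x ↦ T(x)` is lower semicontinuous on the points: for open `U` the set of the points `x` such
that `T(x)` meets `U` is open. -/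
def PointwiseLSC : Prop :=
  ∀ U : Set S, IsOpen U → IsOpen {x : S | (jonesT S {x} ∩ U).Nonempty}

/-- `S` is indecomposable: it is not the union of two proper subcontinua. -/
def Indecomposable : Prop :=
  ¬ ∃ A B : Set S, IsClosed A ∧ IsConnected A ∧ A ≠ univ ∧ IsClosed B ∧ IsConnected B ∧
    B ≠ univ ∧ A ∪ B = univ

variable {S}

theorem jonesT_eq (A : Set S) : jonesT S A = Pool.Agent.Helper300.JonesT.T A := by
  ext p
  rw [jonesT, mem_compl_iff, ← not_iff_not, not_not, Pool.Agent.Helper300.JonesT.notMem_T]
  simp only [mem_ofPred_eq, mem_interior_iff_mem_nhds, disjoint_iff_inter_eq_empty]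

theorem lsc_of_continuous [T1Space S] (h : TContinuous S) : PointwiseLSC S := by
  intro U hU
  obtain ⟨h1, h2⟩ := h
  let _ : TopologicalSpace {A : Set S // IsClosed A} := vietorisTopology S
  have h3 : IsOpen {A : {A : Set S // IsClosed A} | (A.1 ∩ U).Nonempty} :=
    isOpen_generateFrom_of_mem ⟨U, hU, Or.inr rfl⟩
  have h4 := h3.preimage h2
  have h5 : Continuous fun x : S => (⟨{x}, isClosed_singleton⟩ : {A : Set S // IsClosed A}) := by
    refine continuous_generateFrom_iff.2 ?_
    rintro X ⟨V, hV, rfl | rfl⟩
    · have e : (fun x : S => (⟨{x}, isClosed_singleton⟩ : {A : Set S // IsClosed A})) ⁻¹'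
          {A | A.1 ⊆ V} = V := by
        ext x
        simp
      rw [e]
      exact hV
    · have e : (fun x : S => (⟨{x}, isClosed_singleton⟩ : {A : Set S // IsClosed A})) ⁻¹'
          {A | (A.1 ∩ V).Nonempty} = V := by
        ext x
        simp
      rw [e]
      exact hV
  exact h4.preimage h5

theorem indecomposable_of_univ (h : ∀ x : S, jonesT S {x} = univ) : Indecomposable S := by
  rintro ⟨A, B, hA, hAc, hA1, hB, hBc, hB1, hAB⟩
  obtain ⟨x, hx⟩ : ∃ x, x ∉ A := by
    by_contra hcon
    push Not at hcon
    exact hA1 (eq_univ_of_forall hcon)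
  obtain ⟨y, hy⟩ : ∃ y, y ∉ B := by
    by_contra hcon
    push Not at hcon
    exact hB1 (eq_univ_of_forall hcon)
  have h1 : y ∈ jonesT S {x} := by
    rw [h x]
    exact mem_univ y
  apply h1
  refine ⟨A, hA, hAc, ?_, ?_⟩
  · rw [mem_interior]
    refine ⟨Bᶜ, fun z hz => ?_, hB.isOpen_compl, hy⟩
    have h2 : z ∈ A ∪ B := by
      rw [hAB]
      exact mem_univ z
    exact h2.resolve_right hz
  · rw [inter_singleton_eq_empty]
    exact hx

/-- **The answer is yes.**  Let `S` be a continuum, that is, a compact connected Hausdorff space.

1. If `T` is continuous for `S`, then `x ↦ T(x)` is lower semicontinuous on the points.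
2. If `x ↦ T(x)` is lower semicontinuous on the points, then the sets `T(x)` form a partition of `S`; and if
   moreover some `T(p)` has nonempty interior, then `S` is indecomposable.

So `S` is indecomposable if `T` is continuous for `S` and some `T(p)` has nonempty interior. -/
theorem result (S : Type u) [TopologicalSpace S] [CompactSpace S] [ConnectedSpace S] [T2Space S] :
    (TContinuous S → PointwiseLSC S) ∧
    (PointwiseLSC S → (∀ x y : S, y ∈ jonesT S {x} → jonesT S {y} = jonesT S {x}) ∧
      ((∃ p : S, (interior (jonesT S {p})).Nonempty) → Indecomposable S)) ∧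
    (TContinuous S → (∃ p : S, (interior (jonesT S {p})).Nonempty) → Indecomposable S) := by
  have key : PointwiseLSC S → (∀ x y : S, y ∈ jonesT S {x} → jonesT S {y} = jonesT S {x}) ∧
      ((∃ p : S, (interior (jonesT S {p})).Nonempty) → Indecomposable S) := by
    intro h
    have h1 : Pool.Agent.Y798.JT.PL S := by
      intro U hU
      have h2 := h U hU
      simp only [jonesT_eq] at h2
      exact h2
    refine ⟨fun x y hy => ?_, ?_⟩
    · rw [jonesT_eq] at hy ⊢
      rw [jonesT_eq]
      exact Pool.Agent.Y798.JT.T_eq_of_mem h1 hy
    · rintro ⟨p, hp⟩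
      rw [jonesT_eq] at hp
      refine indecomposable_of_univ fun x => ?_
      rw [jonesT_eq]
      exact Pool.Agent.Y798.JT.T_eq_univ h1 hp x
  exact ⟨lsc_of_continuous, key, fun h => (key (lsc_of_continuous h)).2⟩

end Pool.Agent.Results.MP_3a3191_gt.InteriorAtOnePoint
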